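import Pool.Agent.Y843.HS.Stm
import Pool.Agent.Helper256.KM.Mertens

set_option autoImplicit false

/-!
# Sifting primes between `R` and `R ^ L`, and auxiliary bounds
-/

open Finset

namespace Pool.Agent.Y79.HS

open Pool.Agent.Y843.HS

theorem sum_pr {C : ℝ} (hC : ∀ N : ℕ, 3 ≤ N →
    |∑ p ∈ (Finset.Icc 1 N).filter Nat.Prime, (1 : ℝ) / p - Real.log (Real.log N)| ≤ C)
    {R Y : ℕ} (hR : 3 ≤ R) (hY : R ≤ Y) :
    ∑ p ∈ Pr R Y, (1 : ℝ) / p ≤ Real.log (Real.log Y) - Real.log (Real.log R) + 2 * C := by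
  have h1 : ∑ p ∈ (Icc 1 R).filter Nat.Prime, (1 : ℝ) / p + ∑ p ∈ Pr R Y, (1 : ℝ) / p =
      ∑ p ∈ (Icc 1 Y).filter Nat.Prime, (1 : ℝ) / p := by
    unfold Pr
    rw [sum_filter, sum_filter, sum_filter]
    have h2 : ∀ N : ℕ, Icc 1 N = Ioc 0 N := by
      intro N
      ext x
      simp only [mem_Icc, mem_Ioc]
      omega
    rw [h2, h2]
    exact Finset.sum_Ioc_consecutive _ (Nat.zero_le _) hY
  have h2 := abs_le.1 (hC R hR)
  have h3 := abs_le.1 (hC Y (hR.trans hY))
  linarith [h2.1, h2.2, h3.1, h3.2]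

theorem one_sub_ge {x : ℝ} (h0 : 0 ≤ x) (h1 : x ≤ 1 / 2) : Real.exp (-(2 * x)) ≤ 1 - x := by
  have h2 : 1 + 2 * x ≤ Real.exp (2 * x) := by
    have := Real.add_one_le_exp (2 * x)
    linarith
  rw [Real.exp_neg]
  have h3 : 0 < 1 + 2 * x := by linarith
  have h4 : (Real.exp (2 * x))⁻¹ ≤ (1 + 2 * x)⁻¹ := inv_anti₀ h3 h2
  refine h4.trans ?_
  rw [inv_le_iff_one_le_mul₀ h3]
  nlinarith

theorem den : S_DEN := by
  intro r L
  obtain ⟨C, hC⟩ := Pool.Agent.Helper256.KM.mertens_inv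
  have hC0 : 0 ≤ C := (abs_nonneg _).trans (hC 3 le_rfl)
  set M : ℝ := Real.log (L + 1) + 2 * C with hM
  have hM0 : 0 ≤ M := by
    have : 0 ≤ Real.log ((L : ℝ) + 1) := Real.log_nonneg (by
      have : (0 : ℝ) ≤ L := Nat.cast_nonneg _
      linarith)
    linarith
  refine ⟨Real.exp (-(2 * (r * M))), Real.exp_pos _, 2 * r + 3, ?_⟩
  intro R Y hR hY Z hZ
  rcases le_total Y R with hYR | hYR
  · have h1 : Pr R Y = ∅ := by
      unfold Pr
      rw [Finset.Ioc_eq_empty (by omega), filter_empty]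
    unfold VV
    rw [h1, prod_empty]
    rw [Real.exp_le_one_iff]
    have : (0 : ℝ) ≤ r := Nat.cast_nonneg _
    have := mul_nonneg this hM0
    linarith
  · have hR3 : 3 ≤ R := by omega
    have hR1 : (1 : ℝ) < R := by exact_mod_cast (by omega : 1 < R)
    have hlR : 0 < Real.log R := Real.log_pos hR1
    have hs := sum_pr hC hR3 hYR
    have hY0 : (0 : ℝ) < Y := by exact_mod_cast (by omega : 0 < Y)
    have hlY : Real.log Y ≤ (L + 1) * Real.log R := by
      have h1 : (Y : ℝ) ≤ (R : ℝ) ^ (L + 1) := by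
        have h2 : Y ≤ R ^ (L + 1) := hY.trans (Nat.pow_le_pow_right (by omega) (by omega))
        exact_mod_cast h2
      have h2 := Real.log_le_log hY0 h1
      rw [Real.log_pow] at h2
      push_cast at h2
      exact h2
    have hlY0 : 0 < Real.log Y := by
      apply Real.log_pos
      exact_mod_cast (by omega : 1 < Y)
    have hll : Real.log (Real.log Y) ≤ Real.log (L + 1) + Real.log (Real.log R) := by
      have h1 := Real.log_le_log hlY0 hlY
      rw [Real.log_mul (by positivity) hlR.ne'] at h1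
      exact h1
    have hsum : ∑ p ∈ Pr R Y, (1 : ℝ) / p ≤ M := by linarith
    have hterm : ∀ p ∈ Pr R Y, Real.exp (-(2 * (r * (1 / (p : ℝ))))) ≤
        1 - ((Z p).card : ℝ) / p := by
      intro p hp
      have hp' := mem_filter.1 hp
      have hpR : R < p := (mem_Ioc.1 hp'.1).1
      have hp0 : (0 : ℝ) < p := by exact_mod_cast (by omega : 0 < p)
      have hZ1 : ((Z p).card : ℝ) ≤ r := by exact_mod_cast (hZ p hp).1
      have hx0 : 0 ≤ ((Z p).card : ℝ) / p := by positivity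
      have hx1 : ((Z p).card : ℝ) / p ≤ r / p := div_le_div_of_nonneg_right hZ1 hp0.le
      have hx2 : (r : ℝ) / p ≤ 1 / 2 := by
        rw [div_le_div_iff₀ hp0 (by norm_num)]
        have : ((2 * r : ℕ) : ℝ) ≤ p := by exact_mod_cast (by omega : 2 * r ≤ p)
        push_cast at this
        linarith
      have h1 := one_sub_ge (x := (r : ℝ) / p) (by positivity) hx2
      have h2 : (r : ℝ) * (1 / (p : ℝ)) = r / p := by ring
      rw [h2]
      linarith
    unfold VV
    calc Real.exp (-(2 * (r * M))) ≤ Real.exp (∑ p ∈ Pr R Y, (-(2 * (r * (1 / (p : ℝ)))))) := by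
          apply Real.exp_le_exp.2
          rw [Finset.sum_neg_distrib, ← Finset.mul_sum, ← Finset.mul_sum]
          have : (0 : ℝ) ≤ r := Nat.cast_nonneg _
          have := mul_le_mul_of_nonneg_left hsum this
          linarith
      _ = ∏ p ∈ Pr R Y, Real.exp (-(2 * (r * (1 / (p : ℝ))))) := Real.exp_sum _ _
      _ ≤ ∏ p ∈ Pr R Y, (1 - ((Z p).card : ℝ) / p) :=
          Finset.prod_le_prod (fun p _ => (Real.exp_pos _).le) hterm

/-- sums of inverse squares of primes -/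
theorem sum_sq_le {s z : ℕ} (hs : 1 ≤ s) : ∑ p ∈ Pr s z, 1 / (p : ℝ) ^ 2 ≤ 1 / (s : ℝ) := by
  rcases le_total z s with h | h
  · have h1 : Pr s z = ∅ := by
      unfold Pr
      rw [Finset.Ioc_eq_empty (by omega), filter_empty]
    rw [h1, sum_empty]
    positivity
  · have h1 := sum_Ioc_inv_sq_le_sub (α := ℝ) (k := s) (n := z) (by omega) h
    have h2 : ∑ p ∈ Pr s z, 1 / (p : ℝ) ^ 2 ≤ ∑ i ∈ Ioc s z, ((i : ℝ) ^ 2)⁻¹ := by
      unfold Pr
      simp only [one_div]
      apply Finset.sum_le_sum_of_subset_of_nonneg (filter_subset _ _)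
      intro i _ _
      positivity
    have h3 : (0 : ℝ) ≤ (z : ℝ)⁻¹ := by positivity
    rw [one_div (s : ℝ)]
    linarith

end Pool.Agent.Y79.HS
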