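import Pool.Agent.Y79.HS.Den

set_option autoImplicit false

/-!
# Average over short differences
-/

open Finset

namespace Pool.Agent.Y79.HS

open Pool.Agent.Y843.HS

theorem card_class {H : Finset ℤ} {N D : ℕ} (hD : 0 < D) (hH : H ⊆ Ioo (-(N : ℤ)) N)
    (hc : ∀ a ∈ H, ∀ b ∈ H, (D : ℤ) ∣ a - b) : (H.card : ℝ) ≤ 2 * N / D + 1 := by
  have hD0 : (0 : ℝ) < D := by exact_mod_cast hD
  rcases H.eq_empty_or_nonempty with h | h
  · rw [h, card_empty]
    simp only [Nat.cast_zero]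
    positivity
  · set h0 := H.min' h with hh0
    have h0m : h0 ∈ H := min'_mem _ _
    have hmin : ∀ a ∈ H, h0 ≤ a := fun a ha => min'_le _ _ ha
    have h1 : H.card ≤ (range (2 * N / D + 1)).card := by
      apply card_le_card_of_injOn (fun a => ((a - h0) / D).toNat)
      · intro a ha
        have ha1 := mem_Ioo.1 (hH ha)
        have hb1 := mem_Ioo.1 (hH h0m)
        have h2 := hmin a ha
        rw [coe_range, Set.mem_Iio]
        have h3 : (a - h0) / D ≤ ((2 * N / D : ℕ) : ℤ) := by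
          push_cast
          apply Int.ediv_le_ediv (by exact_mod_cast hD)
          linarith
        have h4 : ((a - h0) / D).toNat ≤ 2 * N / D := Int.toNat_le.2 h3
        exact Nat.lt_succ_of_le h4
      · intro a ha b hb hab
        have e1 := hc a ha h0 h0m
        have e2 := hc b hb h0 h0m
        have f1 := hmin a ha
        have f2 := hmin b hb
        simp only at hab
        obtain ⟨k, hk⟩ := e1
        obtain ⟨l, hl⟩ := e2
        have hDz : (0 : ℤ) < D := by exact_mod_cast hD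
        rw [hk, hl, Int.mul_ediv_cancel_left _ hDz.ne', Int.mul_ediv_cancel_left _ hDz.ne'] at hab
        have hk0 : 0 ≤ k := by
          by_contra hneg
          push Not at hneg
          nlinarith
        have hl0 : 0 ≤ l := by
          by_contra hneg
          push Not at hneg
          nlinarith
        have hkl : k = l := by omega
        rw [hkl] at hk
        linarith
    rw [card_range] at h1
    have h2 : (H.card : ℝ) ≤ ((2 * N / D + 1 : ℕ) : ℝ) := by exact_mod_cast h1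
    refine h2.trans ?_
    push_cast
    have h3 := Nat.cast_div_le (α := ℝ) (m := 2 * N) (n := D)
    push_cast at h3
    linarith

/-- `h` is a difference of two of the classes modulo `p` -/
def Df (Z : ℕ → Finset ℕ) (p : ℕ) (h : ℤ) : Prop :=
  ∃ c ∈ Z p, ∃ c' ∈ Z p, (p : ℤ) ∣ h - ((c : ℤ) - c')

open Classical in
theorem count {r N : ℕ} {Z : ℕ → Finset ℕ} (T : Finset ℕ) : (∀ p ∈ T, p.Prime) →
    (∀ p ∈ T, (Z p).card ≤ r) → ∀ D : ℕ, 0 < D → (∀ p ∈ T, Nat.Coprime p D) →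
    ∀ H : Finset ℤ, H ⊆ Ioo (-(N : ℤ)) N → (∀ a ∈ H, ∀ b ∈ H, (D : ℤ) ∣ a - b) →
    ((H.filter (fun h => ∀ p ∈ T, Df Z p h)).card : ℝ) ≤
      ((r : ℝ) ^ 2) ^ T.card * (2 * N / (D * ((∏ p ∈ T, p : ℕ) : ℝ)) + 1) := by
  induction T using Finset.induction_on with
  | empty =>
    intro _ _ D hD _ H hH hc
    simp only [card_empty, pow_zero, one_mul, prod_empty, Nat.cast_one, mul_one]
    refine le_trans ?_ (card_class hD hH hc)
    exact_mod_cast card_filter_le _ _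
  | insert p T hp ih =>
    intro hpr hZ D hD hcop H hH hc
    have hpp := hpr p (mem_insert_self _ _)
    have hp0 := hpp.pos
    set B : ℝ := ((r : ℝ) ^ 2) ^ T.card * (2 * N / (((D * p : ℕ) : ℝ) * ((∏ p ∈ T, p : ℕ) : ℝ)) + 1)
      with hB
    have hB0 : 0 ≤ B := by positivity
    have h1 : H.filter (fun h => ∀ q ∈ insert p T, Df Z q h) ⊆
        (Z p ×ˢ Z p).biUnion (fun cc => (H.filter (fun h => (p : ℤ) ∣ h - ((cc.1 : ℤ) - cc.2))).filter
          (fun h => ∀ q ∈ T, Df Z q h)) := by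
      intro h hh
      rw [mem_filter] at hh
      obtain ⟨c, hc1, c', hc2, hd⟩ := hh.2 p (mem_insert_self _ _)
      rw [mem_biUnion]
      exact ⟨(c, c'), mem_product.2 ⟨hc1, hc2⟩, mem_filter.2 ⟨mem_filter.2 ⟨hh.1, hd⟩,
        fun q hq => hh.2 q (mem_insert_of_mem hq)⟩⟩
    have h2 : ∀ cc ∈ Z p ×ˢ Z p,
        ((((H.filter (fun h => (p : ℤ) ∣ h - ((cc.1 : ℤ) - cc.2))).filter
          (fun h => ∀ q ∈ T, Df Z q h)).card : ℕ) : ℝ) ≤ B := by
      intro cc _
      apply ih (fun q hq => hpr q (mem_insert_of_mem hq)) (fun q hq => hZ q (mem_insert_of_mem hq))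
        (D * p) (Nat.mul_pos hD hp0)
      · intro q hq
        apply Nat.Coprime.mul_right (hcop q (mem_insert_of_mem hq))
        rw [Nat.coprime_primes (hpr q (mem_insert_of_mem hq)) hpp]
        rintro rfl
        exact hp hq
      · exact (filter_subset _ _).trans hH
      · intro a ha b hb
        rw [mem_filter] at ha hb
        have e1 := hc a ha.1 b hb.1
        have e2 : (p : ℤ) ∣ a - b := by
          have := dvd_sub ha.2 hb.2
          rwa [sub_sub_sub_cancel_right] at this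
        have e3 : IsCoprime (D : ℤ) (p : ℤ) :=
          Nat.isCoprime_iff_coprime.2 (hcop p (mem_insert_self _ _)).symm
        push_cast
        exact e3.mul_dvd e1 e2
    have h3 : ((H.filter (fun h => ∀ q ∈ insert p T, Df Z q h)).card : ℝ) ≤
        ∑ cc ∈ Z p ×ˢ Z p, ((((H.filter (fun h => (p : ℤ) ∣ h - ((cc.1 : ℤ) - cc.2))).filter
          (fun h => ∀ q ∈ T, Df Z q h)).card : ℕ) : ℝ) := by
      have := (card_le_card h1).trans card_biUnion_le
      exact_mod_cast this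
    refine h3.trans ((Finset.sum_le_sum h2).trans ?_)
    rw [sum_const, card_product, nsmul_eq_mul]
    have h4 : (((Z p).card * (Z p).card : ℕ) : ℝ) ≤ (r : ℝ) ^ 2 := by
      have h5 : (Z p).card * (Z p).card ≤ r * r :=
        Nat.mul_le_mul (hZ p (mem_insert_self _ _)) (hZ p (mem_insert_self _ _))
      rw [sq]
      exact_mod_cast h5
    refine (mul_le_mul_of_nonneg_right h4 hB0).trans (le_of_eq ?_)
    rw [hB, card_insert_of_notMem hp, prod_insert hp]
    push_cast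
    rw [pow_succ, mul_assoc (D : ℝ)]
    ring

open Classical in
theorem Gd_eq (K : ℕ) (Z : ℕ → Finset ℕ) (a b : ℕ) (h : ℤ) :
    Gd K Z a b h - 1 = ∑ T ∈ (Pr a b).powerset.erase ∅,
      (∏ p ∈ T, ((K : ℝ) / p)) * (if ∀ p ∈ T, Df Z p h then 1 else 0) := by
  have h1 : Gd K Z a b h = ∑ T ∈ (Pr a b).powerset,
      (∏ p ∈ T, ((K : ℝ) / p)) * (if ∀ p ∈ T, Df Z p h then 1 else 0) := by
    unfold Gd
    rw [Finset.prod_one_add]
    simp only [mul_ite, mul_one, mul_zero]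
    rw [← Finset.sum_filter]
    apply Finset.sum_congr _ (fun _ _ => rfl)
    ext T
    simp only [mem_powerset, mem_filter]
    constructor
    · intro hT
      exact ⟨hT.trans (filter_subset _ _), fun p hp => (mem_filter.1 (hT hp)).2⟩
    · rintro ⟨h2, h3⟩ p hp
      exact mem_filter.2 ⟨h2 hp, h3 p hp⟩
  rw [h1, ← Finset.add_sum_erase _ _ (empty_mem_powerset (Pr a b))]
  simp

open Classical in
theorem sum_bound {r K N : ℕ} {Z : ℕ → Finset ℕ} {s R : ℕ} (hZ : Sv r s R Z) :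
    ∑ h ∈ Ioo (-(N : ℤ)) N, (Gd K Z s R h - 1) ≤
      2 * N * (∏ p ∈ Pr s R, (1 + ((K * r ^ 2 : ℕ) : ℝ) * (1 / (p : ℝ) ^ 2)) - 1) +
        ∏ p ∈ Pr s R, (1 + ((K * r ^ 2 : ℕ) : ℝ) * (1 / (p : ℝ))) := by
  simp only [Gd_eq]
  rw [Finset.sum_comm]
  have h1 : ∀ T ∈ (Pr s R).powerset.erase ∅,
      ∑ h ∈ Ioo (-(N : ℤ)) N, (∏ p ∈ T, ((K : ℝ) / p)) * (if ∀ p ∈ T, Df Z p h then 1 else 0) ≤
      2 * N * ∏ p ∈ T, (((K * r ^ 2 : ℕ) : ℝ) * (1 / (p : ℝ) ^ 2)) +
        ∏ p ∈ T, (((K * r ^ 2 : ℕ) : ℝ) * (1 / (p : ℝ))) := by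
    intro T hT
    have hT1 : T ⊆ Pr s R := mem_powerset.1 (mem_of_mem_erase hT)
    rw [← Finset.mul_sum, ← Finset.sum_filter, sum_const, nsmul_eq_mul, mul_one]
    have h2 := count (r := r) (N := N) (Z := Z) T (fun p hp => (mem_filter.1 (hT1 hp)).2)
      (fun p hp => (hZ p (hT1 hp)).1) 1 one_pos (fun p _ => Nat.coprime_one_right p)
      (Ioo (-(N : ℤ)) N) (Finset.Subset.refl _) (fun a _ b _ => by simp)
    have h3 : 0 ≤ ∏ p ∈ T, ((K : ℝ) / p) := Finset.prod_nonneg (fun p _ => by positivity)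
    refine (mul_le_mul_of_nonneg_left h2 h3).trans (le_of_eq ?_)
    have e1 : ((r : ℝ) ^ 2) ^ T.card = ∏ p ∈ T, (r : ℝ) ^ 2 := by rw [prod_const]
    have e2 : ∏ p ∈ T, (((K * r ^ 2 : ℕ) : ℝ) * (1 / (p : ℝ) ^ 2)) =
        (∏ p ∈ T, ((K : ℝ) / p)) * (∏ p ∈ T, (r : ℝ) ^ 2) * (∏ p ∈ T, (1 / (p : ℝ))) := by
      rw [← Finset.prod_mul_distrib, ← Finset.prod_mul_distrib]
      apply Finset.prod_congr rfl
      intro p _
      push_cast
      ring
    have e3 : ∏ p ∈ T, (((K * r ^ 2 : ℕ) : ℝ) * (1 / (p : ℝ))) =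
        (∏ p ∈ T, ((K : ℝ) / p)) * (∏ p ∈ T, (r : ℝ) ^ 2) := by
      rw [← Finset.prod_mul_distrib]
      apply Finset.prod_congr rfl
      intro p _
      push_cast
      ring
    have e4 : ∏ p ∈ T, (1 / (p : ℝ)) = 1 / ((∏ p ∈ T, p : ℕ) : ℝ) := by
      rw [Finset.prod_div_distrib, prod_const_one]
      push_cast
      rfl
    rw [e2, e3, e4, e1, Nat.cast_one, one_mul]
    ring
  refine (Finset.sum_le_sum h1).trans ?_
  rw [Finset.sum_add_distrib, ← Finset.mul_sum]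
  have h2 : ∑ T ∈ (Pr s R).powerset.erase ∅,
      ∏ p ∈ T, (((K * r ^ 2 : ℕ) : ℝ) * (1 / (p : ℝ) ^ 2)) =
      ∏ p ∈ Pr s R, (1 + ((K * r ^ 2 : ℕ) : ℝ) * (1 / (p : ℝ) ^ 2)) - 1 := by
    rw [Finset.prod_one_add, ← Finset.add_sum_erase _ _ (empty_mem_powerset (Pr s R)), prod_empty]
    ring
  have h3 : ∑ T ∈ (Pr s R).powerset.erase ∅,
      ∏ p ∈ T, (((K * r ^ 2 : ℕ) : ℝ) * (1 / (p : ℝ))) ≤
      ∏ p ∈ Pr s R, (1 + ((K * r ^ 2 : ℕ) : ℝ) * (1 / (p : ℝ))) := by
    rw [Finset.prod_one_add, ← Finset.add_sum_erase _ _ (empty_mem_powerset (Pr s R)), prod_empty]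
    linarith
  rw [h2]
  linarith

theorem prod_le_exp {ι : Type} (s : Finset ι) (x : ι → ℝ) (h0 : ∀ i ∈ s, 0 ≤ x i) :
    ∏ i ∈ s, (1 + x i) ≤ Real.exp (∑ i ∈ s, x i) := by
  rw [Real.exp_sum]
  apply Finset.prod_le_prod
  · intro i hi
    have := h0 i hi
    linarith
  · intro i _
    have := Real.add_one_le_exp (x i)
    linarith

theorem exp_sub_one_le {x : ℝ} (h0 : 0 ≤ x) (h1 : x ≤ 1 / 2) : Real.exp x - 1 ≤ 2 * x := by
  have h2 : 1 - x ≤ Real.exp (-x) := by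
    have := Real.add_one_le_exp (-x)
    linarith
  rw [Real.exp_neg] at h2
  have h3 : 0 < 1 - x := by linarith
  have h4 : Real.exp x ≤ (1 - x)⁻¹ := by
    rw [le_inv_comm₀ (Real.exp_pos x) h3]
    exact h2
  have h5 : (1 - x)⁻¹ ≤ 1 + 2 * x := by
    rw [inv_le_iff_one_le_mul₀ h3]
    nlinarith
  linarith

theorem gav : S_GAV := by
  classical
  intro r K ε hε
  obtain ⟨C, hC⟩ := Pool.Agent.Helper256.KM.mertens_inv
  have hC0 : 0 ≤ C := (abs_nonneg _).trans (hC 3 le_rfl)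
  set k : ℕ := K * r ^ 2 with hk
  obtain ⟨s₁, hs₁⟩ := exists_nat_ge (8 * (k : ℝ) / ε)
  set E : ℝ := Real.exp (k * C) with hE
  have hE0 : 0 < E := Real.exp_pos _
  obtain ⟨X₁, hX₁⟩ := exists_nat_ge (Real.exp (2 * E / ε))
  refine ⟨max s₁ (2 * k + 1), k + 1, max X₁ 3, ?_⟩
  intro s R X N hs hX hRX hN Z hZ
  have hs1 : s₁ ≤ s := (le_max_left _ _).trans hs
  have hs2 : 2 * k + 1 ≤ s := (le_max_right _ _).trans hs
  have hX1 : X₁ ≤ X := (le_max_left _ _).trans hX
  have hX3 : 3 ≤ X := (le_max_right _ _).trans hX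
  have hs0 : (0 : ℝ) < s := by exact_mod_cast (by omega : 0 < s)
  have hXr : (0 : ℝ) < X := by exact_mod_cast (by omega : 0 < X)
  have hlX : 0 < Real.log X := Real.log_pos (by exact_mod_cast (by omega : 1 < X))
  have hlX2 : 2 * E / ε ≤ Real.log X := by
    rw [Real.le_log_iff_exp_le hXr]
    exact hX₁.trans (by exact_mod_cast hX1)
  have hNr : (0 : ℝ) < N := lt_of_lt_of_le (by positivity) hN
  have hk0 : (0 : ℝ) ≤ k := Nat.cast_nonneg _
  -- first part
  have h1 : ∏ p ∈ Pr s R, (1 + (k : ℝ) * (1 / (p : ℝ) ^ 2)) - 1 ≤ ε / 4 := by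
    have h2 := prod_le_exp (Pr s R) (fun p => (k : ℝ) * (1 / (p : ℝ) ^ 2))
      (fun p _ => by positivity)
    rw [← Finset.mul_sum] at h2
    have h3 := sum_sq_le (s := s) (z := R) (by omega)
    have h4 : (k : ℝ) * ∑ p ∈ Pr s R, 1 / (p : ℝ) ^ 2 ≤ k * (1 / s) :=
      mul_le_mul_of_nonneg_left h3 hk0
    have h5 := Real.exp_le_exp.2 h4
    have h6 : (k : ℝ) * (1 / s) ≤ 1 / 2 := by
      rw [mul_one_div, div_le_div_iff₀ hs0 (by norm_num)]
      have : ((2 * k : ℕ) : ℝ) ≤ s := by exact_mod_cast (by omega : 2 * k ≤ s)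
      push_cast at this
      linarith
    have h7 := exp_sub_one_le (by positivity : (0 : ℝ) ≤ (k : ℝ) * (1 / s)) h6
    have h8 : 2 * ((k : ℝ) * (1 / s)) ≤ ε / 4 := by
      rw [mul_one_div, mul_div_assoc', div_le_div_iff₀ hs0 (by norm_num)]
      rw [div_le_iff₀ hε] at hs₁
      have h9 : (s₁ : ℝ) * ε ≤ s * ε :=
        mul_le_mul_of_nonneg_right (by exact_mod_cast hs1) hε.le
      linarith
    linarith
  -- second part
  have h2 : ∏ p ∈ Pr s R, (1 + (k : ℝ) * (1 / (p : ℝ))) ≤ E * Real.log X ^ k := by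
    have h3 := prod_le_exp (Pr s R) (fun p => (k : ℝ) * (1 / (p : ℝ))) (fun p _ => by positivity)
    rw [← Finset.mul_sum] at h3
    have h4 : ∑ p ∈ Pr s R, 1 / (p : ℝ) ≤ Real.log (Real.log X) + C := by
      have h5 := (abs_le.1 (hC X hX3)).2
      have h6 : ∑ p ∈ Pr s R, 1 / (p : ℝ) ≤ ∑ p ∈ (Icc 1 X).filter Nat.Prime, (1 : ℝ) / p := by
        apply Finset.sum_le_sum_of_subset_of_nonneg
        · intro p hp
          unfold Pr at hp
          rw [mem_filter, mem_Ioc] at hp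
          rw [mem_filter, mem_Icc]
          exact ⟨⟨hp.2.one_lt.le, hp.1.2.trans hRX⟩, hp.2⟩
        · intro p _ _
          positivity
      linarith
    have h5 : (k : ℝ) * ∑ p ∈ Pr s R, 1 / (p : ℝ) ≤ k * C + k * Real.log (Real.log X) := by
      have := mul_le_mul_of_nonneg_left h4 hk0
      linarith
    refine h3.trans ((Real.exp_le_exp.2 h5).trans (le_of_eq ?_))
    have e1 : Real.exp (k * Real.log (Real.log X)) = Real.log X ^ k := by
      rw [Real.exp_nat_mul, Real.exp_log hlX]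
    rw [Real.exp_add, e1]
  have h3 := sum_bound (K := K) (N := N) hZ
  rw [← hk] at h3
  rw [div_le_iff₀ hNr]
  have h4 : E * Real.log X ^ k ≤ ε / 2 * N := by
    have h5 : 2 * E / ε * Real.log X ^ k ≤ N := by
      refine le_trans ?_ hN
      rw [pow_succ, mul_comm]
      exact mul_le_mul_of_nonneg_left hlX2 (by positivity)
    have h6 : 2 * E / ε * Real.log X ^ k = 2 * (E * Real.log X ^ k) / ε := by ring
    rw [h6, div_le_iff₀ hε] at h5
    linarith
  have h5 : 2 * (N : ℝ) * (∏ p ∈ Pr s R, (1 + (k : ℝ) * (1 / (p : ℝ) ^ 2)) - 1) ≤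
      2 * N * (ε / 4) := mul_le_mul_of_nonneg_left h1 (by positivity)
  have h6 : ∑ h ∈ Ioo (-(N : ℤ)) N, (Gd K Z s R h - 1) ≤ ε * N := by
    linarith
  exact h6

end Pool.Agent.Y79.HS
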