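import Pool.Agent.Y79.HS.Den

set_option autoImplicit false

/-!
# Local factors
-/

open Finset

namespace Pool.Agent.Y79.HS

open Pool.Agent.Y843.HS

/-- shifts preserve the number of classes -/
theorem card_shift {p : ℕ} (hp : 0 < p) (Z : Finset ℕ) (hZ : ∀ c ∈ Z, c < p) (u : ℕ) :
    ((range p).filter (fun c => (c + u) % p ∈ Z)).card = Z.card := by
  have hinj : ∀ a ∈ range p, ∀ b ∈ range p, (a + u) % p = (b + u) % p → a = b := by
    intro a ha b hb hab
    have h1 : a ≡ b [MOD p] := Nat.ModEq.add_right_cancel' u hab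
    have h2 := h1
    unfold Nat.ModEq at h2
    rw [Nat.mod_eq_of_lt (mem_range.1 ha), Nat.mod_eq_of_lt (mem_range.1 hb)] at h2
    exact h2
  have hmap : ∀ a ∈ range p, (a + u) % p ∈ range p := fun a _ => mem_range.2 (Nat.mod_lt _ hp)
  have himg : (range p).image (fun a => (a + u) % p) = range p := by
    apply Finset.eq_of_subset_of_card_le
    · intro x hx
      obtain ⟨a, ha, rfl⟩ := mem_image.1 hx
      exact hmap a ha
    · rw [card_image_of_injOn (fun a ha b hb hab => hinj a ha b hb hab)]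
  apply Finset.card_bij (fun c _ => (c + u) % p)
  · intro a ha
    exact (mem_filter.1 ha).2
  · intro a ha b hb hab
    exact hinj a (mem_filter.1 ha).1 b (mem_filter.1 hb).1 hab
  · intro z hz
    have h1 : z ∈ (range p).image (fun a => (a + u) % p) := by
      rw [himg]
      exact mem_range.2 (hZ z hz)
    obtain ⟨a, ha, h2⟩ := mem_image.1 h1
    exact ⟨a, mem_filter.2 ⟨ha, by rw [h2]; exact hz⟩, h2⟩

theorem Om_eq (Z : ℕ → Finset ℕ) {m : ℕ} (u : Fin m → ℕ) (p : ℕ) :
    Om Z u p = univ.biUnion (fun i : Fin m => (range p).filter (fun c => (c + u i) % p ∈ Z p)) := by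
  ext c
  simp only [Om, mem_filter, mem_biUnion, mem_univ, true_and]
  constructor
  · rintro ⟨h1, i, h2⟩
    exact ⟨i, h1, h2⟩
  · rintro ⟨i, h1, h2⟩
    exact ⟨h1, i, h2⟩

theorem Om_le {p : ℕ} (hp : 0 < p) (Z : ℕ → Finset ℕ) (hZ : ∀ c ∈ Z p, c < p) {m : ℕ}
    (u : Fin m → ℕ) : (Om Z u p).card ≤ m * (Z p).card := by
  rw [Om_eq]
  refine card_biUnion_le.trans ?_
  rw [Finset.sum_congr rfl (fun i _ => card_shift hp (Z p) hZ (u i)), sum_const, card_univ,
    Fintype.card_fin, smul_eq_mul]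

theorem Om_card {p : ℕ} (hp : 0 < p) (Z : ℕ → Finset ℕ) (hZ : ∀ c ∈ Z p, c < p) {m : ℕ}
    (u : Fin m → ℕ) (h : ¬ Co Z u p) : (Om Z u p).card = m * (Z p).card := by
  rw [Om_eq, card_biUnion]
  · rw [Finset.sum_congr rfl (fun i _ => card_shift hp (Z p) hZ (u i)), sum_const, card_univ,
      Fintype.card_fin, smul_eq_mul]
  · intro i _ j _ hij
    show Disjoint _ _
    rw [disjoint_left]
    intro c h1 h2
    exact h ⟨i, j, hij, c, (mem_filter.1 h1).2, (mem_filter.1 h2).2⟩

/-- the product of `1 - x` -/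
theorem one_sub_sum_le {ι : Type} (s : Finset ι) (x : ι → ℝ) (h0 : ∀ i ∈ s, 0 ≤ x i)
    (h1 : ∀ i ∈ s, x i ≤ 1) : 1 - ∑ i ∈ s, x i ≤ ∏ i ∈ s, (1 - x i) := by
  classical
  induction s using Finset.induction_on with
  | empty => simp
  | insert a s ha ih =>
    rw [sum_insert ha, prod_insert ha]
    have h2 := ih (fun i hi => h0 i (mem_insert_of_mem hi)) (fun i hi => h1 i (mem_insert_of_mem hi))
    have h3 := h0 a (mem_insert_self a s)
    have h4 := h1 a (mem_insert_self a s)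
    have h5 : ∏ i ∈ s, (1 - x i) ≤ 1 := by
      apply Finset.prod_le_one
      · intro i hi
        have := h1 i (mem_insert_of_mem hi)
        linarith
      · intro i hi
        have := h0 i (mem_insert_of_mem hi)
        linarith
    nlinarith

theorem pow_le_taylor {a : ℝ} (h0 : 0 ≤ a) (h1 : a ≤ 1) (m : ℕ) :
    (1 - a) ^ m ≤ 1 - m * a + (m : ℝ) ^ 2 * a ^ 2 := by
  induction m with
  | zero => simp
  | succ m ih =>
    have hb := one_add_mul_le_pow (a := -a) (by linarith) m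
    rw [pow_succ]
    have h2 : 0 ≤ 1 - a := by linarith
    have h3 := mul_le_mul_of_nonneg_right ih h2
    refine h3.trans ?_
    push_cast
    have hm : (0 : ℝ) ≤ m := Nat.cast_nonneg _
    nlinarith [mul_nonneg hm (sq_nonneg a), mul_nonneg (mul_nonneg hm hm) (pow_nonneg h0 3),
      sq_nonneg a]

theorem pow_ge {a : ℝ} (h1 : a ≤ 1) (m : ℕ) : 1 - m * a ≤ (1 - a) ^ m := by
  have hb := one_add_mul_le_pow (a := -a) (by linarith) m
  have : 1 + (m : ℝ) * -a = 1 - m * a := by ring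
  rw [this] at hb
  have h2 : 1 + -a = 1 - a := by ring
  rw [h2] at hb
  exact hb

theorem loc : S_LOC := by
  classical
  intro r m
  refine ⟨2 * (m * r), ?_⟩
  intro ε hε
  obtain ⟨s₁, hs₁⟩ := exists_nat_ge ((2 * (m : ℝ) ^ 2 * (r : ℝ) ^ 2) / ε)
  refine ⟨max (s₁ + 1) (2 * (m * r) + 2 * r + 1), ?_⟩
  intro s z hs Z hZ u
  have hs1 : s₁ + 1 ≤ s := (le_max_left _ _).trans hs
  have hs2 : 2 * (m * r) + 2 * r + 1 ≤ s := (le_max_right _ _).trans hs
  have hs0 : (0 : ℝ) < s := by exact_mod_cast (by omega : 0 < s)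
  -- facts on primes
  have fac : ∀ p ∈ Pr s z, 0 < p ∧ (∀ c ∈ Z p, c < p) ∧ 0 ≤ ((Z p).card : ℝ) / p ∧
      ((Z p).card : ℝ) / p ≤ r / p ∧ (m : ℝ) * r / p ≤ 1 / 2 ∧ (r : ℝ) / p ≤ 1 / 2 := by
    intro p hp
    have hp' := mem_filter.1 hp
    have hps : s < p := (mem_Ioc.1 hp'.1).1
    have hp0 : (0 : ℝ) < p := by exact_mod_cast (by omega : 0 < p)
    have hZ1 : ((Z p).card : ℝ) ≤ r := by exact_mod_cast (hZ p hp).1
    refine ⟨by omega, (hZ p hp).2, by positivity, div_le_div_of_nonneg_right hZ1 hp0.le, ?_, ?_⟩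
    · rw [div_le_div_iff₀ hp0 (by norm_num)]
      have : ((2 * (m * r) : ℕ) : ℝ) ≤ p := by exact_mod_cast (by omega : 2 * (m * r) ≤ p)
      push_cast at this
      linarith
    · rw [div_le_div_iff₀ hp0 (by norm_num)]
      have : ((2 * r : ℕ) : ℝ) ≤ p := by exact_mod_cast (by omega : 2 * r ≤ p)
      push_cast at this
      linarith
  have hOm : ∀ p ∈ Pr s z, ((Om Z u p).card : ℝ) / p ≤ m * (((Z p).card : ℝ) / p) := by
    intro p hp
    obtain ⟨h1, h2, -⟩ := fac p hp
    have hp0 : (0 : ℝ) < p := by exact_mod_cast h1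
    have h3 : ((Om Z u p).card : ℝ) ≤ m * (Z p).card := by exact_mod_cast Om_le h1 Z h2 u
    rw [mul_div_assoc']
    exact div_le_div_of_nonneg_right h3 hp0.le
  constructor
  · -- lower bound
    set c' : ℝ := 2 * (m : ℝ) ^ 2 * (r : ℝ) ^ 2 with hc'
    have hc0 : 0 ≤ c' := by positivity
    have h1 : ∀ p ∈ Pr s z, (1 - ((Z p).card : ℝ) / p) ^ m *
        (1 - c' * (1 / (p : ℝ) ^ 2)) ≤ 1 - ((Om Z u p).card : ℝ) / p := by
      intro p hp
      obtain ⟨f1, f2, f3, f4, f5, f6⟩ := fac p hp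
      have hp0 : (0 : ℝ) < p := by exact_mod_cast f1
      have h2 := hOm p hp
      generalize ((Z p).card : ℝ) / p = a at f3 f4 h2
      have hm : (0 : ℝ) ≤ m := Nat.cast_nonneg _
      have ha1 : (m : ℝ) * a ≤ 1 / 2 := by
        have : (m : ℝ) * a ≤ m * (r / p) := mul_le_mul_of_nonneg_left f4 hm
        rw [mul_div_assoc] at f5
        linarith
      have hT := pow_le_taylor f3 (by linarith) m
      have hG := pow_ge (a := a) (by linarith) m
      set D : ℝ := (1 - a) ^ m with hD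
      have hD2 : 1 / 2 ≤ D := by linarith
      have hra : (m : ℝ) ^ 2 * a ^ 2 ≤ (m : ℝ) ^ 2 * (r : ℝ) ^ 2 * (1 / (p : ℝ) ^ 2) := by
        have h3 : a ^ 2 ≤ ((r : ℝ) / p) ^ 2 := pow_le_pow_left₀ f3 f4 2
        rw [div_pow] at h3
        have h4 := mul_le_mul_of_nonneg_left h3 (by positivity : (0 : ℝ) ≤ (m : ℝ) ^ 2)
        refine h4.trans (le_of_eq ?_)
        ring
      have h5 : 0 ≤ (m : ℝ) ^ 2 * a ^ 2 := by positivity
      have h6 : c' * (1 / (p : ℝ) ^ 2) = 2 * ((m : ℝ) ^ 2 * (r : ℝ) ^ 2 * (1 / (p : ℝ) ^ 2)) := by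
        rw [hc']
        ring
      rw [h6]
      set w : ℝ := (m : ℝ) ^ 2 * (r : ℝ) ^ 2 * (1 / (p : ℝ) ^ 2) with hw
      have h7 : D * (1 - 2 * w) ≤ D - w := by
        have : 0 ≤ w := h5.trans hra
        nlinarith
      linarith
    have hx : ∀ p ∈ Pr s z, 0 ≤ c' * (1 / (p : ℝ) ^ 2) ∧ c' * (1 / (p : ℝ) ^ 2) ≤ 1 := by
      intro p hp
      obtain ⟨f1, f2, f3, f4, f5, f6⟩ := fac p hp
      have hp0 : (0 : ℝ) < p := by exact_mod_cast f1
      refine ⟨by positivity, ?_⟩
      have h2 : c' * (1 / (p : ℝ) ^ 2) = 2 * ((m : ℝ) * r / p) ^ 2 := by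
        rw [hc', div_pow, mul_pow]
        ring
      rw [h2]
      have h3 : (0 : ℝ) ≤ (m : ℝ) * r / p := by positivity
      nlinarith
    have h2 := one_sub_sum_le (Pr s z) (fun p => c' * (1 / (p : ℝ) ^ 2)) (fun p hp => (hx p hp).1)
      (fun p hp => (hx p hp).2)
    rw [← Finset.mul_sum] at h2
    have h3 := sum_sq_le (s := s) (z := z) (by omega)
    have h4 : c' * (1 / (s : ℝ)) ≤ ε := by
      rw [mul_one_div, div_le_iff₀ hs0]
      rw [div_le_iff₀ hε] at hs₁
      have h5 : (s₁ : ℝ) ≤ s := by exact_mod_cast (by omega : s₁ ≤ s)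
      have h6 := mul_le_mul_of_nonneg_right h5 hε.le
      linarith
    have h5 : 1 - ε ≤ ∏ p ∈ Pr s z, (1 - c' * (1 / (p : ℝ) ^ 2)) := by
      have := mul_le_mul_of_nonneg_left h3 hc0
      linarith
    have hV : 0 ≤ VV Z s z ^ m := by
      unfold VV
      apply pow_nonneg
      apply Finset.prod_nonneg
      intro p hp
      obtain ⟨f1, f2, f3, f4, f5, f6⟩ := fac p hp
      linarith
    calc (1 - ε) * VV Z s z ^ m ≤ (∏ p ∈ Pr s z, (1 - c' * (1 / (p : ℝ) ^ 2))) * VV Z s z ^ m :=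
          mul_le_mul_of_nonneg_right h5 hV
      _ = ∏ p ∈ Pr s z, ((1 - ((Z p).card : ℝ) / p) ^ m * (1 - c' * (1 / (p : ℝ) ^ 2))) := by
          unfold VV
          rw [Finset.prod_mul_distrib, Finset.prod_pow]
          ring
      _ ≤ _ := by
          apply Finset.prod_le_prod _ h1
          intro p hp
          obtain ⟨f1, f2, f3, f4, f5, f6⟩ := fac p hp
          have := (hx p hp).2
          apply mul_nonneg
          · apply pow_nonneg
            linarith
          · linarith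
  · -- upper bound
    unfold VV Coll
    rw [← Finset.prod_pow, Finset.prod_filter, ← Finset.prod_mul_distrib]
    apply Finset.prod_le_prod
    · intro p hp
      obtain ⟨f1, f2, f3, f4, f5, f6⟩ := fac p hp
      have hp0 : (0 : ℝ) < p := by exact_mod_cast f1
      have h2 := hOm p hp
      have hm : (0 : ℝ) ≤ m := Nat.cast_nonneg _
      have : (m : ℝ) * (((Z p).card : ℝ) / p) ≤ m * (r / p) := mul_le_mul_of_nonneg_left f4 hm
      rw [mul_div_assoc] at f5
      linarith
    · intro p hp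
      obtain ⟨f1, f2, f3, f4, f5, f6⟩ := fac p hp
      have hp0 : (0 : ℝ) < p := by exact_mod_cast f1
      have hm : (0 : ℝ) ≤ m := Nat.cast_nonneg _
      have hG := pow_ge (a := ((Z p).card : ℝ) / p) (by linarith) m
      split_ifs with hco
      · have h3 : (m : ℝ) * (((Z p).card : ℝ) / p) ≤ m * r / p := by
          rw [mul_div_assoc]
          exact mul_le_mul_of_nonneg_left f4 hm
        have h4 : 1 - (m : ℝ) * r / p ≤ (1 - ((Z p).card : ℝ) / p) ^ m := by linarith
        have h5 : (0 : ℝ) ≤ (m : ℝ) * r / p := by positivity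
        have h6 : (1 : ℝ) ≤ (1 - (m : ℝ) * r / p) * (1 + ((2 * (m * r) : ℕ) : ℝ) / p) := by
          have h7 : ((2 * (m * r) : ℕ) : ℝ) / p = 2 * ((m : ℝ) * r / p) := by
            push_cast
            ring
          rw [h7]
          nlinarith
        have h7 : (0 : ℝ) ≤ ((Om Z u p).card : ℝ) / p := by positivity
        have h8 : (1 - (m : ℝ) * r / p) * (1 + ((2 * (m * r) : ℕ) : ℝ) / p) ≤
            (1 - ((Z p).card : ℝ) / p) ^ m * (1 + ((2 * (m * r) : ℕ) : ℝ) / p) :=
          mul_le_mul_of_nonneg_right h4 (by positivity)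
        linarith
      · rw [mul_one, Om_card f1 Z f2 u hco]
        push_cast
        rw [mul_div_assoc]
        exact hG

end Pool.Agent.Y79.HS
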